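import Pool.Agent.W_MP_825298_an.Fin6

/-!
# The nontangential maximal function of the gradient of a harmonic function on a bounded Lipschitz domain

Full affirmative answer to Q1 of MP_825298_an, for all `n = d + 1 ≥ 4`.
The definitions (`W`, `hor`, `ver`, `Chart`, `Chart.cyl`, `Chart.surf`, `IsCone`, `IsRegularFamily`) are in
`Pool.Agent.W_MP_825298_an.FinDefs`.
-/

open MeasureTheory Set Filter Topology
open scoped ENNReal NNReal BigOperators

namespace Pool.Agent.Results.MP_825298_an.NontangentialL1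

open NTMax

/-- Let `n = d + 1 ≥ 4`, let `D ⊆ ℝ^n` be bounded and open, with `∂D` covered by finitely many Lipschitz coordinate
cylinders, let `u` be harmonic in `D` such that in every cylinder the integrals of `|∇u|` over the translates
`x_n = φ(x') + ε` of the boundary are bounded for small `ε > 0`, and let `Γ` be a regular family of cones.
Then the nontangential maximal function `NF(P) = sup {|∇u(Q)| : Q ∈ Γ(P)}` is bounded on `∂D` by a Borel function with
finite integral over `∂D`; in particular the integral of `NF` over `∂D` is finite. -/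
theorem result {d : ℕ} (hd : 3 ≤ d) (D : Set (W (d + 1))) (hD : IsOpen D) (hDb : Bornology.IsBounded D)
    {ι : Type*} [Finite ι] (c : ι → Chart D) (hcov : frontier D ⊆ ⋃ i, (c i).cyl)
    (u : W (d + 1) → ℝ) (hu : InnerProductSpace.HarmonicOnNhd u D)
    (hstar : ∀ i, ∃ ε0 : ℝ, 0 < ε0 ∧ ∃ A : ℝ≥0∞, A ≠ ⊤ ∧ ∀ ε : ℝ, 0 < ε → ε < ε0 →
      ∫⁻ Q in (c i).surf ε, ‖gradient u Q‖ₑ ∂(Measure.hausdorffMeasure (d : ℝ)) ≤ A)
    (Γ : W (d + 1) → Set (W (d + 1))) (hΓ : IsRegularFamily D Γ) :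
    (∃ g : W (d + 1) → ℝ≥0∞, Measurable g ∧ (∀ P ∈ frontier D, (⨆ Q ∈ Γ P, ‖gradient u Q‖ₑ) ≤ g P) ∧
      ∫⁻ P in frontier D, g P ∂(Measure.hausdorffMeasure (d : ℝ)) < ⊤) ∧
    ∫⁻ P in frontier D, (⨆ Q ∈ Γ P, ‖gradient u Q‖ₑ) ∂(Measure.hausdorffMeasure (d : ℝ)) < ⊤ := by
  obtain ⟨g, hg, hle, hint⟩ := nontangential_L1 hd D hD hDb c hcov u hu hstar Γ hΓ
  refine ⟨⟨g, hg, hle, hint⟩, lt_of_le_of_lt ?_ hint⟩
  exact setLIntegral_mono' isClosed_frontier.measurableSet hle

end Pool.Agent.Results.MP_825298_an.NontangentialL1
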